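import Pool.Agent.Work.MP_f0e709_co.N4
import Pool.Agent.Work.MP_f0e709_co.Tr

set_option autoImplicit false

namespace Pool.Agent.Results.MP_f0e709_co.DegreeTwo

/-- For `k ≥ 3` every finite `P(k)`-graph has minimum degree exactly two, and its number of
edges `e` and of vertices `v` satisfy `2 e + 2 ≤ 5 (v - 1)`. -/
theorem result (k : ℕ) (hk : 3 ≤ k) (V : Type) [Fintype V] [Nontrivial V]
    (G : SimpleGraph V) [DecidableRel G.Adj]
    (h : ∀ u v : V, u ≠ v → ∃! p : G.Walk u v, p.IsPath ∧ p.length = k) :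
    (∀ x : V, 2 ≤ G.degree x) ∧ (∃ x : V, G.degree x = 2) ∧
      2 * G.edgeFinset.card + 2 ≤ 5 * (Fintype.card V - 1) := by
  classical
  have hP := Pool.Agent.Work.KZ.pk_of_walk h
  obtain ⟨x, hx⟩ := hP.exists_degree_two_all hk
  refine ⟨fun y => ?_, ⟨x, hx⟩, ?_⟩
  · obtain ⟨r, hr⟩ := hP.even_degree hk y
    have h0 := hP.degree_pos (by omega) y
    omega
  · have h1 := hP.sum_degree_le (by omega) x
    rw [hx] at h1
    have h2 := G.sum_degrees_eq_twice_card_edges
    omega

end Pool.Agent.Results.MP_f0e709_co.DegreeTwo
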