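import Pool.Agent.Work.MP_f0e709_co.DF5
import Pool.Agent.Work.MP_f0e709_co.Tr

/-! Graphs in which every two distinct vertices are joined by exactly one path of length `k ≥ 4`: every
`(k+1)`-cycle carries more than half of the excess degree; the number `m` of `(k+1)`-cycles is smaller than the
maximum degree, and even if `k` is even.  Hence the maximum degree is at least six if `k` is even, and if it is four
then `k` is odd and there are exactly three `(k+1)`-cycles. -/

set_option autoImplicit false

namespace Pool.Agent.Results.MP_f0e709_co.DeltaFour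

open Pool.Agent.Work.KZ

theorem isCyc_of_walk {V : Type*} {G : SimpleGraph V} {u : V} (c : G.Walk u u) (hc : c.IsCycle) :
    IsCyc G c.support.tail ∧ c.support.tail.length = c.length ∧ ∀ x, x ∈ c.support.tail ↔ x ∈ c.support := by
  have hl : c.support.tail.length = c.length := by
    rw [List.length_tail, SimpleGraph.Walk.length_support]; rfl
  have h3 := hc.three_le_length
  have hne : c.support.tail ≠ [] := by
    intro h0
    rw [h0] at hl
    simp at hl
    omega
  have hs : c.support = u :: c.support.tail := c.cons_tail_support.symm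
  have hlast : c.support.tail.getLast? = some u := by
    have h1 : c.support.getLast? = some u := by
      rw [List.getLast?_eq_some_getLast c.support_ne_nil, SimpleGraph.Walk.getLast_support]
    rw [hs, show u :: c.support.tail = [u] ++ c.support.tail by rfl,
      List.getLast?_append_of_ne_nil _ hne] at h1
    exact h1
  have hch := c.isChain_adj_support
  rw [hs] at hch
  refine ⟨⟨⟨hc.support_nodup, ?_⟩, ?_, by omega⟩, hl, ?_⟩
  · exact hch.tail
  · intro x hx y hy
    have hx' : x = u := by
      rw [hlast] at hx
      simpa using hx.symm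
    subst hx'
    obtain ⟨z, l, hz⟩ := List.exists_cons_of_ne_nil hne
    rw [hz] at hch hy
    have hy' : y = z := by simpa using hy.symm
    subst hy'
    rw [List.isChain_cons_cons] at hch
    exact hch.1
  · intro x
    constructor
    · exact List.mem_of_mem_tail
    · intro hx
      rw [hs] at hx
      rcases List.mem_cons.1 hx with h1 | h1
      · rw [h1]
        exact List.mem_of_getLast? hlast
      · exact h1

theorem result :
    ∀ (k : ℕ), 4 ≤ k → ∀ (V : Type*) [Fintype V] [DecidableEq V] [Nontrivial V] (G : SimpleGraph V)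
      [DecidableRel G.Adj], (∀ u v : V, u ≠ v → ∃! p : G.Walk u v, p.IsPath ∧ p.length = k) →
      (∀ (u : V) (c : G.Walk u u), c.IsCycle → c.length = k + 1 →
        ∑ x with x ∉ c.support, ((G.degree x : ℤ) - 2) < ∑ x with x ∈ c.support, ((G.degree x : ℤ) - 2)) ∧
      (∃ m : ℕ, G.edgeFinset.card = m * (k + 1) ∧ 3 ≤ m ∧ m < G.maxDegree ∧ (Even k → Even m)) ∧
      (Even k → 6 ≤ G.maxDegree) ∧
      (G.maxDegree ≤ 4 → Odd k ∧ G.edgeFinset.card = 3 * (k + 1)) := by
  intro k hk V _ _ _ G _ h
  have hG := pk_of_walk h
  obtain ⟨m, hm, hm3, hmd, hme⟩ := hG.cycles_lt hk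
  have hev := hG.even_maxDegree (by omega)
  refine ⟨?_, ⟨m, hm, hm3, hmd, hme⟩, ?_, ?_⟩
  · intro u c hc hcl
    obtain ⟨h1, h2, h3⟩ := isCyc_of_walk c hc
    have h4 := hG.strict_all hk _ h1 (by rw [h2, hcl])
    simp only [h3] at h4
    linarith
  · intro hke
    obtain ⟨a, ha⟩ := hme hke
    obtain ⟨b, hb⟩ := hev
    omega
  · intro hd
    have hm3' : m = 3 := by omega
    subst hm3'
    refine ⟨?_, hm⟩
    by_contra hcon
    rw [Nat.not_odd_iff_even] at hcon
    obtain ⟨a, ha⟩ := hme hcon
    omega

end Pool.Agent.Results.MP_f0e709_co.DeltaFour
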