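import Pool.Agent.Work.MP_f0e709_co.T4d
import Pool.Agent.Work.MP_f0e709_co.R1d
import Pool.Agent.Work.MP_f0e709_co.Tr

/-! If every two distinct vertices of `G` are joined by exactly one path of length `k ≥ 4`, then every even cycle
of `G` is shorter than `4k/3`. -/

set_option autoImplicit false

namespace Pool.Agent.Results.MP_f0e709_co.NoLongEven

open Pool.Agent.Work.KZ

theorem isCyc_of_walk {V : Type*} {G : SimpleGraph V} {u : V} (c : G.Walk u u) (hc : c.IsCycle) :
    IsCyc G c.support.tail ∧ c.support.tail.length = c.length := by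
  have hl : c.support.tail.length = c.length := by
    rw [List.length_tail, SimpleGraph.Walk.length_support]; rfl
  have h3 := hc.three_le_length
  have hne : c.support.tail ≠ [] := by
    intro h0
    rw [h0] at hl
    simp at hl
    omega
  have hs : c.support = u :: c.support.tail := c.cons_tail_support.symm
  have hch := c.isChain_adj_support
  rw [hs] at hch
  refine ⟨⟨⟨hc.support_nodup, ?_⟩, ?_, by omega⟩, hl⟩
  · exact hch.tail
  · intro x hx y hy
    have hx' : x = u := by
      have h1 : c.support.getLast? = some u := by
        rw [List.getLast?_eq_some_getLast c.support_ne_nil, SimpleGraph.Walk.getLast_support]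
      rw [hs, show u :: c.support.tail = [u] ++ c.support.tail by rfl,
        List.getLast?_append_of_ne_nil _ hne] at h1
      rw [h1] at hx
      simpa using hx.symm
    subst hx'
    obtain ⟨z, l, hz⟩ := List.exists_cons_of_ne_nil hne
    rw [hz] at hch hy
    have hy' : y = z := by simpa using hy.symm
    subst hy'
    rw [List.isChain_cons_cons] at hch
    exact hch.1

theorem result :
    ∀ (k : ℕ), 4 ≤ k → ∀ (V : Type*) (G : SimpleGraph V),
      (∀ u v : V, u ≠ v → ∃! p : G.Walk u v, p.IsPath ∧ p.length = k) →
      ∀ (u : V) (c : G.Walk u u), c.IsCycle → Even c.length → 3 * c.length < 4 * k := by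
  intro k hk V G h u c hc hev
  have hG := pk_of_walk h
  obtain ⟨hZ, hl⟩ := isCyc_of_walk c hc
  by_contra hcon
  push Not at hcon
  obtain ⟨r, hr⟩ := hev
  have h2 := hG.even_lt (by omega) hZ (r := r) (by omega)
  exact hG.no_long_even hk hZ (by rw [hl]; exact ⟨r, hr⟩) (by rw [hl]; exact hcon) (by rw [hl]; omega)

end Pool.Agent.Results.MP_f0e709_co.NoLongEven
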