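import Pool.Agent.Work.MP_f0e709_co.T2
import Pool.Agent.Work.MP_f0e709_co.R3
import Pool.Agent.Work.MP_f0e709_co.Tr

/-! If every two distinct vertices of a finite graph `G` are joined by exactly one path of length `k ≥ 3`, then `G`
has at most `(2k-2)(k+1)` edges and at most `2(k-1)(k+1)` vertices. -/

set_option autoImplicit false

namespace Pool.Agent.Results.MP_f0e709_co.Order

open Pool.Agent.Work.KZ

theorem edgeFinset_card_any {V : Type*} (G : SimpleGraph V) (i1 i2 : Fintype G.edgeSet) :
    (@SimpleGraph.edgeFinset V G i1).card = (@SimpleGraph.edgeFinset V G i2).card := by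
  rw [Subsingleton.elim i1 i2]

theorem result :
    ∀ (k : ℕ), 3 ≤ k → ∀ (V : Type*) [Fintype V] (G : SimpleGraph V) [Fintype G.edgeSet],
      1 < Fintype.card V →
      (∀ u v : V, u ≠ v → ∃! p : G.Walk u v, p.IsPath ∧ p.length = k) →
      G.edgeFinset.card ≤ (2 * k - 2) * (k + 1) ∧ Fintype.card V ≤ 2 * (k - 1) * (k + 1) := by
  classical
  intro k hk V _ G _ hV h
  haveI : Nontrivial V := Fintype.one_lt_card_iff_nontrivial.1 hV
  have hG := pk_of_walk h
  have hF := hG.pfor_all hk
  refine ⟨?_, hG.pfor_card hk hF⟩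
  have h1 := hG.pfor_edges hk hF
  have h2 : ∑ y, G.degree y = 2 * G.edgeFinset.card := by
    rw [G.sum_degrees_eq_twice_card_edges]
    exact congrArg (fun t => 2 * t) (edgeFinset_card_any G _ _)
  rw [h2] at h1
  have h3 : 2 * (k + 1) * (2 * k - 2) = 2 * ((2 * k - 2) * (k + 1)) := by ring
  omega

end Pool.Agent.Results.MP_f0e709_co.Order
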